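import Mathlib

set_option autoImplicit false

namespace Pool.ADP

/-- An increasing vector of `N` truth values changes at most `N` times. -/
theorem card_changes {N J : ℕ} (a : ℕ → Fin N → Prop) (hmono : ∀ j v, a j v → a (j + 1) v)
    (S : Finset (Fin J)) (hS : ∀ j ∈ S, ∃ v, a (j + 1) v ∧ ¬ a j v) : S.card ≤ N := by
  classical
  have hm : ∀ j k : ℕ, j ≤ k → ∀ v, a j v → a k v := by
    intro j k hjk
    induction k, hjk using Nat.le_induction with
    | base => exact fun v h => h
    | succ k _ ih => exact fun v h => hmono k v (ih v h)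
  choose g hg using hS
  have hinj : Function.Injective (fun j : {x // x ∈ S} => g j.1 j.2) := by
    rintro ⟨j, hj⟩ ⟨k, hk⟩ hjk
    have hjk' : g j hj = g k hk := hjk
    by_contra hne
    have hne' : j ≠ k := fun h => hne (Subtype.ext h)
    rcases lt_or_gt_of_ne hne' with hlt | hlt
    · exact (hg k hk).2 (hjk' ▸ hm _ _ (Nat.succ_le_of_lt (Fin.lt_def.mp hlt)) _ (hg j hj).1)
    · exact (hg j hj).2 (hjk'.symm ▸ hm _ _ (Nat.succ_le_of_lt (Fin.lt_def.mp hlt)) _ (hg k hk).1)
  have := Fintype.card_le_of_injective _ hinj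
  simpa using this

end Pool.ADP
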